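import Pool.Agent.VM5.Stmts
import Pool.Agent.Helper20_VM5.Weyl

set_option autoImplicit false

/-! WEY: Weyl's inequality for quintic sums, from `Helper20_VM5.weyl_mid`. -/

namespace Pool.Agent.VM5.H29

open Pool.Agent.Helper69_Weyl (ee W)

theorem ws_eq (t ξ : ℝ) (N : ℕ) : WS t ξ N = W 5 N t ξ := by
  rw [Pool.Agent.Helper20_Mont.W_int]
  unfold WS
  rfl

theorem wey : WeyStmt := by
  intro ε hε
  obtain ⟨C, hC, h⟩ := Pool.Agent.Helper20_VM5.weyl_mid 5 (by norm_num) (16 * ε) (by positivity)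
  refine ⟨(C + 1) ^ ((1 : ℝ) / 16), by positivity, ?_⟩
  intro N u b t ξ hN hNu huN hcop happ
  have hcop' : IsCoprime b (u : ℤ) := Int.isCoprime_iff_gcd_eq_one.mpr hcop
  have h1 := h N hN t ξ b u hNu huN hcop' happ
  rw [← ws_eq] at h1
  have hN0 : (0 : ℝ) < N := by exact_mod_cast hN
  have e1 : (2 : ℕ) ^ (5 - 1) = 16 := by norm_num
  rw [e1] at h1
  have e2 : (16 : ℕ) - 1 = 15 := by norm_num
  rw [e2] at h1
  have hn : 0 ≤ ‖WS t ξ N‖ := norm_nonneg _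
  have h2 : ‖WS t ξ N‖ ^ 16 ≤ ((C + 1) ^ ((1 : ℝ) / 16) * (N : ℝ) ^ ((15 : ℝ) / 16 + ε)) ^ 16 := by
    have e3 : ((C + 1) ^ ((1 : ℝ) / 16)) ^ 16 = C + 1 := by
      rw [← Real.rpow_natCast, ← Real.rpow_mul (by positivity)]
      norm_num
    have e4 : ((N : ℝ) ^ ((15 : ℝ) / 16 + ε)) ^ 16 = (N : ℝ) ^ (16 * ε) * (N : ℝ) ^ 15 := by
      rw [← Real.rpow_natCast, ← Real.rpow_mul (by positivity), ← Real.rpow_natCast (N : ℝ) 15,
        ← Real.rpow_add hN0]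
      congr 1
      push_cast
      ring
    rw [mul_pow, e3, e4]
    calc ‖WS t ξ N‖ ^ 16 ≤ C * (N : ℝ) ^ (16 * ε) * (N : ℝ) ^ 15 := h1
      _ = C * ((N : ℝ) ^ (16 * ε) * (N : ℝ) ^ 15) := by ring
      _ ≤ (C + 1) * ((N : ℝ) ^ (16 * ε) * (N : ℝ) ^ 15) := by
        apply mul_le_mul_of_nonneg_right (by linarith) (by positivity)
  exact le_of_pow_le_pow_left₀ (by norm_num) (by positivity) h2

end Pool.Agent.VM5.H29
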